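import Pool.Agent.Shadow.CornerJ

/-!
# Volume ratio for convex bodies with covering shadows: corner bodies
-/

set_option autoImplicit false

namespace Pool.Agent.Results.MP_7818d0_gt.CornerBodies

open MeasureTheory Pool.Agent.Shadow

/-- The conjectured inequality `V(K) ≤ n/(n-1) V(L)` holds in every dimension `n ≥ 2` if the
covering body `L` is a corner body, in particular if `L` is a polytope with at most `n + 2`
facets. -/
theorem result : ∀ n : ℕ, 2 ≤ n →
    (∀ K L : Set (E n), IsBody K → IsBody L → IsCornerBody L → Covers L K →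
      volume K ≤ ENNReal.ofReal ((n : ℝ) / (n - 1)) * volume L) ∧
    (∀ (a : Fin (n + 2) → E n) (c : Fin (n + 2) → ℝ) (K L : Set (E n)), IsBody K → IsBody L →
      L = {x | ∀ j, inner ℝ (a j) x ≤ c j} → Covers L K →
      volume K ≤ ENNReal.ofReal ((n : ℝ) / (n - 1)) * volume L) :=
  fun _ hn => ⟨fun _ _ hK hL hc hcov => corner_bound hn hK hL hc hcov,
    fun _ _ _ _ hK hL hLe hcov =>
      corner_bound hn hK hL (polytope_corner hLe hL.1 hL.2.1) hcov⟩

end Pool.Agent.Results.MP_7818d0_gt.CornerBodies
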