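import Pool.Agent.CS3.FINAL

/-!
# Volume ratio for convex bodies with covering shadows: dimension three
-/

set_option autoImplicit false

namespace Pool.Agent.Results.MP_7818d0_gt.DimensionThree

open MeasureTheory Pool.Agent.Shadow

/-- The conjecture holds in dimension three: if `L` covers the shadows of `K` then
`V(K) ≤ (3/2) V(L)`; in fact `V(K) ≤ c V(L)` with `c = (85 - 18 √3)/37 = 1.4547...`. -/
theorem result : (∀ K L : Set (E 3), IsBody K → IsBody L → Covers L K →
      volume K ≤ ENNReal.ofReal ((85 - 18 * √3) / 37) * volume L) ∧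
    (85 - 18 * √3) / 37 < (3 : ℝ) / 2 ∧
    (∀ K L : Set (E 3), IsBody K → IsBody L → Covers L K →
      volume K ≤ ENNReal.ofReal (3 / 2) * volume L) := by
  refine ⟨Pool.Agent.CS3.a_MAIN, Pool.Agent.CS3.kap_lt, fun K L hK hL hc => ?_⟩
  exact (Pool.Agent.CS3.a_MAIN K L hK hL hc).trans
    (mul_le_mul_left (ENNReal.ofReal_le_ofReal Pool.Agent.CS3.kap_lt.le) _)

end Pool.Agent.Results.MP_7818d0_gt.DimensionThree
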