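import Pool.Agent.ShadowA.All

/-!
# Volume ratio for convex bodies with covering shadows: constants tending to one
-/

set_option autoImplicit false

namespace Pool.Agent.Results.MP_7818d0_gt.HighDimension

open MeasureTheory Filter Topology Pool.Agent.Shadow

/-- If `L` covers the shadows of `K` in dimension `n ≥ 2`, then `V(K) ≤ n^(50/n) V(L)`; these
constants tend to `1`. -/
theorem result :
    (∀ n : ℕ, 2 ≤ n → ∀ K L : Set (E n), IsBody K → IsBody L → Covers L K →
      volume K ≤ ENNReal.ofReal ((n : ℝ) ^ (50 / (n : ℝ))) * volume L) ∧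
    Tendsto (fun n : ℕ => (n : ℝ) ^ (50 / (n : ℝ))) atTop (𝓝 1) :=
  ⟨fun n hn K L hK hL hc => Pool.Agent.ShadowA.main_bound n K L hn hK hL hc,
    Pool.Agent.ShadowA.const_tendsto⟩

end Pool.Agent.Results.MP_7818d0_gt.HighDimension
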