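import Pool.Agent.Shadow.Main

/-!
# Volume ratio for convex bodies with covering shadows: the bound `(n/(n-1))^(n-1)`
-/

set_option autoImplicit false

namespace Pool.Agent.Results.MP_7818d0_gt.VolumeBound

open MeasureTheory Pool.Agent.Shadow

/-- If `L` covers the shadows of `K` in dimension `n ≥ 2`, then
`V(K) ≤ (n/(n-1))^(n-1) V(L)`, and the constant is smaller than `e`. -/
theorem result : ∀ n : ℕ, 2 ≤ n →
    (∀ K L : Set (E n), IsBody K → IsBody L → Covers L K →
      volume K ≤ ENNReal.ofReal (((n : ℝ) / (n - 1)) ^ (n - 1)) * volume L) ∧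
    ((n : ℝ) / (n - 1)) ^ (n - 1) < Real.exp 1 :=
  fun _ hn => ⟨fun _ _ hK hL hc => bound hn hK hL hc, const_lt hn⟩

end Pool.Agent.Results.MP_7818d0_gt.VolumeBound
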